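import Pool.Agent.Helper70.Dubins.Final

set_option autoImplicit false

namespace Pool.Agent.Results.MP_ab9fb7_gt.LengthSeparation

open Pool.Agent.Helper70.Dubins

theorem nonempty_curveSpace (q : ℂ) (θ₁ : ℝ) : (curveSpace q θ₁).Nonempty := by
  rcases le_total 0 θ₁ with hθ | hθ
  · obtain ⟨L, α, hg, -⟩ := exists_diffuse q hθ
    exact ⟨_, mem_curveSpace_iff.2 ⟨L, α, hg, rfl⟩⟩
  · obtain ⟨L, α, hg, -⟩ := exists_diffuse ((starRingEnd ℂ) q) (θ₁ := -θ₁) (by linarith)
    have h := conjMap_mem (mem_curveSpace_iff.2 ⟨L, α, hg, rfl⟩)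
    rw [Complex.conj_conj, neg_neg] at h
    exact ⟨_, h⟩

/-- Q1 (Dubins): whenever the space of Dubins curves with given end directed points and given
total turning is disconnected, the condensed curves have bounded lengths, and the supremum of
their lengths is smaller than the infimum of the lengths of the diffuse curves. -/
theorem result (q : ℂ) (θ₁ : ℝ) (h : ¬ IsConnected (curveSpace q θ₁)) :
    (condensedLengths q θ₁).Nonempty ∧ BddAbove (condensedLengths q θ₁) ∧
      (diffuseLengths q θ₁).Nonempty ∧
      sSup (condensedLengths q θ₁) < sInf (diffuseLengths q θ₁) :=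
  length_separation q θ₁ fun hp => h ⟨nonempty_curveSpace q θ₁, hp⟩

end Pool.Agent.Results.MP_ab9fb7_gt.LengthSeparation
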